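import Pool.Agent.H23.MPr.Loc
import Pool.Agent.H23.MPr.Glue

/-!
# Minimal primes of modules of projective dimension at most one

`Covered R N` (in `Pool/Agent/H23/MPr/Loc.lean`) says that every minimal prime of `R` is contained
in a minimal prime of `N`, i.e. in a prime minimal over the annihilator of `N`: this is the
conclusion of Q1.

1. Which Noetherian rings have the property that over all their localizations all modules of
   projective dimension at most one are covered: those for which every localization `A` at a prime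
   with a nonunit nonzerodivisor and a minimal prime `p` with `dim A / p = 1` has dimension one.
2. A nonzero module of projective dimension at most one either has all minimal primes of `R` among
   its minimal primes, or has the minimal primes of `R / δ` for a nonzerodivisor `δ`, and then the
   minimal primes `p` of `R` which lie in no minimal prime of `N` are those such that all primes `q`
   minimal over `p + (δ)` have height at least two.
3. If `R` is local, `dim R ≥ 2` and `dim R / p = 1` for a minimal prime `p`, then `p` is contained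
   in no minimal prime of `R / x`, for every nonunit nonzerodivisor `x`.
4. Every Noetherian local domain of dimension at least two is a component of such a ring.
5. In particular Q1 has a negative answer, over every residue field.

Idea of the proof. A module of projective dimension one is the cokernel of an injective matrix. If
the matrix is not square, then the support contains all minimal primes. If it is square, then its
determinant `δ` is a nonzerodivisor which generates the annihilator up to radical, and Krull's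
principal ideal theorem applies to `R / δ`. The ring in 4 is `D⟦X⟧ / (X) ∩ m⟦X⟧`.
-/

set_option autoImplicit false

open CategoryTheory IsLocalRing PowerSeries Pool.Agent.H23.MPr

universe u

namespace Pool.Agent.Results.MP_07e2b8_al.ProjectiveDimensionOne

theorem result :
    -- (1) the rings over which the conclusion holds for projective dimension at most one
    (∀ (R : Type u) [CommRing R] [IsNoetherianRing R],
      (∀ (Q : Ideal R) [Q.IsPrime] (A : Type u) [CommRing A] [Algebra R A]
        [IsLocalization.AtPrime A Q] (N : Type u) [AddCommGroup N] [Module A N],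
        Module.Finite A N → Nontrivial N → HasProjectiveDimensionLE (ModuleCat.of A N) 1 →
        Covered A N) ↔
      ∀ (Q : Ideal R) [Q.IsPrime] (A : Type u) [CommRing A] [Algebra R A]
        [IsLocalization.AtPrime A Q], (∃ x ∈ nonZeroDivisors A, ¬ IsUnit x) →
        (∃ p ∈ minimalPrimes A, ringKrullDim (A ⧸ p) = 1) → ringKrullDim A = 1) ∧
    -- (2) the minimal primes of a module of projective dimension at most one
    (∀ (R : Type u) [CommRing R] [IsNoetherianRing R] [IsLocalRing R] (N : Type u)
      [AddCommGroup N] [Module R N], Module.Finite R N → Nontrivial N →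
      HasProjectiveDimensionLE (ModuleCat.of R N) 1 →
      (∀ p ∈ minimalPrimes R, p ∈ (Module.annihilator R N).minimalPrimes) ∨
      ∃ δ ∈ maximalIdeal R, δ ∈ nonZeroDivisors R ∧
        (Module.annihilator R N).minimalPrimes = (Ideal.span {δ}).minimalPrimes ∧
        ∀ p ∈ minimalPrimes R,
          ((∀ q ∈ (Module.annihilator R N).minimalPrimes, ¬ p ≤ q) ↔
            ∀ q ∈ (p ⊔ Ideal.span {δ}).minimalPrimes,
              (q.map (Ideal.Quotient.mk p)).height = 1 ∧ 2 ≤ q.height)) ∧
    -- (3) one-dimensional components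
    (∀ (R : Type u) [CommRing R] [IsNoetherianRing R] [IsLocalRing R], ∀ p ∈ minimalPrimes R,
      ringKrullDim (R ⧸ p) = 1 → 2 ≤ ringKrullDim R → ∀ x ∈ maximalIdeal R,
      x ∈ nonZeroDivisors R → Nontrivial (R ⧸ Ideal.span {x}) ∧
      HasProjectiveDimensionLE (ModuleCat.of R (R ⧸ Ideal.span {x})) 1 ∧
      ∀ q ∈ (Module.annihilator R (R ⧸ Ideal.span {x})).minimalPrimes, ¬ p ≤ q) ∧
    -- (4) abundance
    (∀ (D : Type u) [CommRing D] [IsDomain D] [IsNoetherianRing D] [IsLocalRing D],
      2 ≤ ringKrullDim D →
      ∃ (R : Type u) (_ : CommRing R) (_ : IsNoetherianRing R) (_ : IsLocalRing R)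
        (p₁ p₂ : Ideal R), IsReduced R ∧ minimalPrimes R = {p₁, p₂} ∧
        Nonempty (R ⧸ p₁ ≃+* D) ∧ Nonempty (R ⧸ p₂ ≃+* (ResidueField D)⟦X⟧) ∧
        (∃ x ∈ maximalIdeal R, x ∈ nonZeroDivisors R) ∧
        ∀ x ∈ maximalIdeal R, x ∈ nonZeroDivisors R →
          ∀ q ∈ (Module.annihilator R (R ⧸ Ideal.span {x})).minimalPrimes, ¬ p₂ ≤ q) ∧
    -- (5) the negative answer to Q1
    ∀ (k : Type u) [Field k], ∃ (R : Type u) (_ : CommRing R) (_ : IsNoetherianRing R)
      (_ : IsLocalRing R) (N : Type u) (_ : AddCommGroup N) (_ : Module R N),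
      Nonempty (ResidueField R ≃+* k) ∧ Module.Finite R N ∧ Nontrivial N ∧
      HasProjectiveDimensionLE (ModuleCat.of R N) 1 ∧
      ∃ p ∈ minimalPrimes R, ∀ q ∈ (Module.annihilator R N).minimalPrimes, ¬ p ≤ q := by
  have h3 : ∀ (R : Type u) [CommRing R] [IsNoetherianRing R] [IsLocalRing R],
      ∀ p ∈ minimalPrimes R, ringKrullDim (R ⧸ p) = 1 → 2 ≤ ringKrullDim R →
      ∀ x ∈ maximalIdeal R, x ∈ nonZeroDivisors R → Nontrivial (R ⧸ Ideal.span {x}) ∧
      HasProjectiveDimensionLE (ModuleCat.of R (R ⧸ Ideal.span {x})) 1 ∧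
      ∀ q ∈ (Module.annihilator R (R ⧸ Ideal.span {x})).minimalPrimes, ¬ p ≤ q := by
    intro R _ _ _ p hp h1 h2 x hxm hx
    refine ⟨Ideal.Quotient.nontrivial_iff.mpr fun h => ?_, pd_le hx, fun q hq => ?_⟩
    · rw [Ideal.span_singleton_eq_top] at h
      exact (mem_nonunits_iff.mp ((IsLocalRing.mem_maximalIdeal _).mp hxm)) h
    · rw [Ideal.annihilator_quotient] at hq
      exact mech hp h1 h2 hx q hq
  refine ⟨fun R _ _ => ⟨fun h Q _ A _ _ _ => ?_, fun h Q _ A _ _ _ N _ _ hf hnt hpd => ?_⟩,
    fun R _ _ _ N _ _ hf hnt hpd => ?_, h3, fun D _ _ _ _ hD => ?_, fun k _ => ?_⟩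
  · rintro ⟨x, hx, hxu⟩ ⟨p, hp, h1⟩
    have hA : IsLocalRing A := IsLocalization.AtPrime.isLocalRing A Q
    have hN : IsNoetherianRing A := IsLocalization.isNoetherianRing Q.primeCompl A inferInstance
    by_contra hne
    have hxm : x ∈ maximalIdeal A := (IsLocalRing.mem_maximalIdeal _).mpr hxu
    obtain ⟨g1, g2, g3⟩ := h3 A p hp h1 (two_le_of p h1 hne) x hxm hx
    obtain ⟨q, hq, hpq⟩ := h Q A (A ⧸ Ideal.span {x}) inferInstance g1 g2 p hp
    exact g3 q hq hpq
  · have hA : IsLocalRing A := IsLocalization.AtPrime.isLocalRing A Q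
    have hN : IsNoetherianRing A := IsLocalization.isNoetherianRing Q.primeCompl A inferInstance
    by_contra hc
    obtain ⟨q, hq, h1, h2, h4⟩ := exists_loc N hpd hc
    have hl : IsLocalization.AtPrime (Localization.AtPrime q) (q.comap (algebraMap R A)) :=
      IsLocalization.isLocalization_isLocalization_atPrime_isLocalization Q.primeCompl
        (Localization.AtPrime q) q
    have hP : (q.comap (algebraMap R A)).IsPrime := hq.comap _
    have h5 := h (q.comap (algebraMap R A)) (Localization.AtPrime q) h1 h2
    rw [h5] at h4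
    exact absurd h4 (by decide)
  · rcases pd_one N hpd with h | ⟨δ, hm, hδ, he⟩
    · exact Or.inl h
    · refine Or.inr ⟨δ, hm, hδ, he, fun p hp => ?_⟩
      rw [he]
      exact cyclic_iff hp hδ
  · obtain ⟨R, i1, i2, i3, p₁, p₂, g1, g2, g3, g4, g5, g6, g7⟩ := glue D hD
    exact ⟨R, i1, i2, i3, p₁, p₂, g1, g2, g3, g4, g7, fun x hxm hx =>
      (h3 R p₂ (by rw [g2]; exact Or.inr rfl) g5 g6 x hxm hx).2.2⟩
  · obtain ⟨R, i1, i2, i3, p₁, p₂, -, g2, ⟨e⟩, -, g5, g6, x, hxm, hx⟩ := glue (k⟦X⟧⟦X⟧) (dim_two k)
    have hp₂ : p₂ ∈ minimalPrimes R := by rw [g2]; exact Or.inr rfl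
    obtain ⟨g, hg⟩ := surj_two e
    obtain ⟨h5, h6, h7⟩ := h3 R p₂ hp₂ g5 g6 x hxm hx
    exact ⟨R, i1, i2, i3, R ⧸ Ideal.span {x}, inferInstance, inferInstance, res_equiv g hg,
      inferInstance, h5, h6, p₂, hp₂, h7⟩

end Pool.Agent.Results.MP_07e2b8_al.ProjectiveDimensionOne
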